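import Pool.Agent.R763.PL.AsmP
import Pool.Agent.R763.PL.AsmF
import Pool.Agent.R763.PL.FEJ
import Pool.Agent.R763.PL.Ker
import Pool.Agent.R763.PL.You
import Pool.Agent.R763.PL.UNI
import Pool.Agent.R763.PL.SMO
import Pool.Agent.R763.PL.EXI
import Pool.Agent.R763.PL.Cpt
import Pool.Agent.R763.PL.MIN
import Pool.Agent.R763.PL.Var
import Pool.Agent.R763.PL.Bot
import Pool.Agent.R763.PL.BOC
import Pool.Agent.R763.PL.Tes
import Pool.Agent.R763.PL.KKT
import Pool.Agent.R763.PL.STEP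
import Pool.Agent.R763.PL.Dens
import Pool.Agent.R763.PL.Flow
import Pool.Agent.R763.PL.ERR
import Pool.Agent.R763.PL.Low
import Pool.Agent.R763.PL.Upp
import Pool.Agent.R763.PL.Exr
import Pool.Agent.R763.PL.EXT

/-!
# The optimal Polyak-Lojasiewicz constant of the Coulomb MMD on the flat torus

For the Coulomb energy `F(ρ) = ½ ‖ρ - 1‖²` (homogeneous Sobolev norm of order `-1`) of probability
measures on the flat torus of dimension `d` the optimal constant in `|∂F|² ≥ c F`, where `|∂F|` is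
the descending slope for the quadratic Wasserstein distance, is `2 (d + 2) / (3 d)`.
In particular the constant `2 / d` is not sharp for `d ≥ 2`.
-/

set_option autoImplicit false

open MeasureTheory UnitAddTorus
open scoped ENNReal Real

namespace Pool.Agent.Results.MP_91511c_an.OptimalConstant

/-- the flat torus of dimension `d` -/
abbrev Torus (d : ℕ) := UnitAddTorus (Fin d)

/-- squared flat distance (`‖x i - y i‖` is the distance in the circle `ℝ / ℤ`) -/
noncomputable def distSq {d : ℕ} (x y : Torus d) : ℝ := ∑ i, ‖x i - y i‖ ^ 2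

/-- `γ` is a coupling of `ρ` and `η` -/
def IsCoupling {d : ℕ} (ρ η : Measure (Torus d)) (γ : Measure (Torus d × Torus d)) : Prop :=
  γ.map Prod.fst = ρ ∧ γ.map Prod.snd = η

/-- quadratic Wasserstein distance of probability measures -/
noncomputable def W2 {d : ℕ} (ρ η : Measure (Torus d)) : ℝ :=
  Real.sqrt (⨅ γ : {γ : Measure (Torus d × Torus d) // IsCoupling ρ η γ},
    ∫ p, distSq p.1 p.2 ∂γ.1)

/-- Fourier coefficients of the periodic Coulomb kernel `g`, `-Δg = δ₀ - 1`: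
`1 / (4 π² |k|²)`, and `0` at `k = 0` -/
noncomputable def coulomb {d : ℕ} (k : Fin d → ℤ) : ℝ := (4 * π ^ 2 * ∑ i, (k i : ℝ) ^ 2)⁻¹

/-- Fourier coefficients of a measure -/
noncomputable def coeff {d : ℕ} (ρ : Measure (Torus d)) (k : Fin d → ℤ) : ℂ :=
  ∫ x, mFourier (-k) x ∂ρ

/-- the energy `F(ρ) = ½ ∫ g * (ρ - 1) d(ρ - 1) = ½ ∑_{k ≠ 0} |ρ^(k)|² / (4 π² |k|²)`, an extended
nonnegative number -/
noncomputable def energy {d : ℕ} (ρ : Measure (Torus d)) : ℝ≥0∞ :=
  (1 / 2) * ∑' k : Fin d → ℤ, ENNReal.ofReal (coulomb k * ‖coeff ρ k‖ ^ 2)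

/-- the descending slope `limsup_{η → ρ in W₂} (F(ρ) - F(η))₊ / W₂(ρ, η)` (the subtraction of
extended nonnegative numbers is truncated at `0`) -/
noncomputable def slope {d : ℕ} (ρ : Measure (Torus d)) : ℝ≥0∞ :=
  ⨅ r : {r : ℝ // 0 < r},
    ⨆ η : {η : Measure (Torus d) // IsProbabilityMeasure η ∧ 0 < W2 ρ η ∧ W2 ρ η < r.1},
      (energy ρ - energy η.1) / ENNReal.ofReal (W2 ρ η.1)

/-- the optimal constant `c_d`: the infimum of `|∂F|²(ρ) / F(ρ)` over the probability measures with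
`0 < F(ρ) < ∞` -/
noncomputable def optimalConstant (d : ℕ) : ℝ≥0∞ :=
  ⨅ ρ : {ρ : Measure (Torus d) // IsProbabilityMeasure ρ ∧ 0 < energy ρ ∧ energy ρ < ⊤},
    slope ρ.1 ^ 2 / energy ρ.1

/-- The optimal constant is `c_d = 2 (d + 2) / (3 d)`. -/
theorem result (d : ℕ) (hd : 1 ≤ d) :
    optimalConstant d = ENNReal.ofReal (2 * (d + 2) / (3 * d)) := by
  have hFEJ := Pool.Agent.R763.PL.FEJ.fej d
  have hKER := Pool.Agent.R763.PL.Ker.ker d hd
  have hYOU := Pool.Agent.R763.PL.you d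
  have hUNI := Pool.Agent.R763.PL.UNI.uni d hd
  have hSMO := Pool.Agent.R763.PL.SMO.smo d hd
  have hEXI := Pool.Agent.R763.PL.EXI.exi d hd hKER hYOU hUNI
  have hCPT := Pool.Agent.R763.PL.Cpt.cpt d hKER hYOU hUNI hSMO hFEJ
  have hMIN := Pool.Agent.R763.PL.MIN.min d hd hEXI hCPT hKER hYOU hUNI hSMO hFEJ
  have hVAR := Pool.Agent.R763.PL.var d hd hFEJ hSMO
  have hKKT := Pool.Agent.R763.PL.KKT.kkt d hd hVAR hEXI
  have hBOT := Pool.Agent.R763.PL.Bot.bot d hd
  have hBOC := Pool.Agent.R763.PL.BOC.boc d hd hBOT hFEJ hSMO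
  have hTES := Pool.Agent.R763.PL.Tes.tes d hd hFEJ hSMO
  have hPL := Pool.Agent.R763.PL.asmP d hMIN hEXI hKKT hBOC hTES
  have hFLOW := Pool.Agent.R763.PL.Flow.flow d (Pool.Agent.R763.PL.STEP.step d)
    (Pool.Agent.R763.PL.Dens.dens d)
  have hERR := Pool.Agent.R763.PL.ERR.err d hd hPL hEXI
  have hLOW := Pool.Agent.R763.PL.Low.low d hd hFEJ hFLOW hERR
  have hfin := Pool.Agent.R763.PL.asmF d hLOW (Pool.Agent.R763.PL.Upp.upp d hd)
    (Pool.Agent.R763.PL.Exr.exr d hd) (Pool.Agent.R763.PL.EXT.ext d hd hFEJ hSMO)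
  have h0 : optimalConstant d = Pool.Agent.R763.PL.cOpt d := rfl
  rw [h0, hfin]
  congr 1
  unfold Pool.Agent.R763.PL.c1
  ring

end Pool.Agent.Results.MP_91511c_an.OptimalConstant
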